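import Mathlib
import Pool.Agent.H525.EX.Stm5
import Pool.Agent.H591.QF.PAR

/-!
# Project EX (helper525), task PAR2 (helper268)

The parity of the number of prime factors of `F2 v = x ^ 4 + (t ^ 2 + t) y ^ 4`.
-/

namespace Pool.Agent.H268.EX

open Polynomial
open Pool.Agent.H985.Chow
open Pool.Agent.H525.QF (lt mon mem_lt mem_mon)
open Pool.Agent.H525.EX (F2 psi S_par2)
open Pool.Agent.H524 (red emb frobLift AC vdm two_dvd_iff isUnit_iff_red two_ne_zero_witt
  red_frobLift frobLift_emb red_emb)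
open Pool.Agent.H591.QF (two_K exists_iff natDegree_cube_mul coeff_cube_mul)

section rev

variable {R : Type} [CommRing R] [IsDomain R]

lemma reverse_lin (a : R) : (X - C a : R[X]).reverse = 1 - C a * X := by
  have h : (X - C a : R[X]).natDegree = 1 := natDegree_X_sub_C a
  ext k
  rw [coeff_reverse, h]
  rcases k with _ | _ | k
  · rw [revAt_le (by omega)]; simp
  · rw [revAt_le (by omega)]; simp [coeff_one]
  · rw [revAt_eq_self_of_lt (by omega)]
    simp [coeff_X, coeff_one]

lemma reverse_prod {ι : Type} (s : Finset ι) (v : ι → R) :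
    (∏ i ∈ s, (X - C (v i))).reverse = ∏ i ∈ s, (1 - C (v i) * X) := by
  classical
  induction s using Finset.induction_on with
  | empty =>
    rw [Finset.prod_empty, Finset.prod_empty]
    have h1 : (1 : R[X]) = C 1 := by rw [C_1]
    rw [h1, reverse_C]
  | insert a s ha ih =>
    rw [Finset.prod_insert ha, Finset.prod_insert ha, reverse_mul_of_domain, ih, reverse_lin]

omit [IsDomain R] in
lemma eval_three (P : R[X]) (x : R) :
    ∃ w, P.eval x = P.coeff 0 + x * P.coeff 1 + x ^ 2 * P.coeff 2 + x ^ 3 * w := by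
  refine ⟨P.divX.divX.divX.eval x, ?_⟩
  have h0 := congrArg (eval x) (divX_mul_X_add P)
  have h1 := congrArg (eval x) (divX_mul_X_add P.divX)
  have h2 := congrArg (eval x) (divX_mul_X_add P.divX.divX)
  simp only [eval_add, eval_mul, eval_X, eval_C, coeff_divX] at h0 h1 h2
  norm_num at h0 h1 h2
  linear_combination -h0 - x * h1 - x ^ 2 * h2

lemma prod_two {n : ℕ} (hn : 2 ≤ n) (v : Fin n → R) : ∃ w : R, ∏ i, (1 + 2 * v i) =
    1 - 2 * (∏ i, (X - C (v i))).coeff (n - 1) + 4 * (∏ i, (X - C (v i))).coeff (n - 2) +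
      8 * w := by
  obtain ⟨G, hG⟩ : ∃ G : R[X], G = ∏ i, (X - C (v i)) := ⟨_, rfl⟩
  have hGm : G.Monic := by
    rw [hG]
    exact monic_prod_of_monic _ _ (fun i _ => monic_X_sub_C _)
  have hd : G.natDegree = n := by
    rw [hG, natDegree_prod_of_monic _ _ (fun i _ => monic_X_sub_C _)]
    simp
  have hr : G.reverse = ∏ i, (1 - C (v i) * X) := by
    rw [hG, reverse_prod]
  obtain ⟨w, hw⟩ := eval_three G.reverse (-2)
  have h0 : G.reverse.coeff 0 = 1 := by
    rw [coeff_reverse, hd, revAt_le (by omega), Nat.sub_zero, ← hd]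
    exact hGm
  have h1 : G.reverse.coeff 1 = G.coeff (n - 1) := by
    rw [coeff_reverse, hd, revAt_le (by omega)]
  have h2 : G.reverse.coeff 2 = G.coeff (n - 2) := by
    rw [coeff_reverse, hd, revAt_le (by omega)]
  have h3 : G.reverse.eval (-2) = ∏ i, (1 + 2 * v i) := by
    rw [hr, eval_prod]
    apply Finset.prod_congr rfl
    intro i _
    simp only [eval_sub, eval_one, eval_mul, eval_C, eval_X]
    ring
  refine ⟨-w, ?_⟩
  rw [← hG, ← h3, hw, h0, h1, h2]
  ring

omit [IsDomain R] in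
lemma prod_four {ι : Type} (s : Finset ι) (f : ι → R) :
    ∃ w : R, ∏ i ∈ s, (1 - 4 * f i) = 1 - 4 * ∑ i ∈ s, f i + 8 * w := by
  classical
  induction s using Finset.induction_on with
  | empty => exact ⟨0, by simp⟩
  | insert a s ha ih =>
    obtain ⟨w, hw⟩ := ih
    refine ⟨w - 4 * f a * w + 2 * f a * ∑ i ∈ s, f i, ?_⟩
    rw [Finset.prod_insert ha, hw, Finset.sum_insert ha]
    ring

end rev

section psis

variable {K : Type} [Field K] [Fintype K] [CharP K 2]

/-- The additive map `w ↦ w ^ 2 + w`. -/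
noncomputable def asMap : K →+ K where
  toFun w := w ^ 2 + w
  map_zero' := by ring
  map_add' x y := by linear_combination (x * y) * two_K (K := K)

omit [Fintype K] in
lemma mem_asMap (c : K) : c ∈ (asMap (K := K)).range ↔ ∃ w : K, w ^ 2 + w = c := Iff.rfl

lemma asMap_index : (asMap (K := K)).range.index = 2 := by
  rw [AddSubgroup.index_range]
  have h : ((asMap (K := K)).ker : Set K) = {0, 1} := by
    ext x
    simp only [SetLike.mem_coe, AddMonoidHom.mem_ker, Set.mem_insert_iff, Set.mem_singleton_iff]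
    have h1 : asMap x = x ^ 2 + x := rfl
    rw [h1]
    constructor
    · intro h
      have h2 : x * (x - 1) = 0 := by linear_combination h - x * two_K (K := K)
      rcases mul_eq_zero.mp h2 with h3 | h3
      · exact Or.inl h3
      · exact Or.inr (sub_eq_zero.mp h3)
    · rintro (rfl | rfl)
      · ring
      · linear_combination two_K (K := K)
  have h2 : Nat.card (asMap (K := K)).ker = Set.ncard ((asMap (K := K)).ker : Set K) := rfl
  rw [h2, h, Set.ncard_pair zero_ne_one]

omit [CharP K 2] in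
open scoped Classical in
lemma psi_eq (c : K) : psi c = if ∃ w : K, w ^ 2 + w = c then 1 else -1 := by
  unfold psi
  split_ifs <;> rfl

lemma psi_add (c d : K) : psi (c + d) = psi c * psi d := by
  classical
  have h := AddSubgroup.add_mem_iff_of_index_two (asMap_index (K := K)) (a := c) (b := d)
  rw [mem_asMap, mem_asMap, mem_asMap] at h
  rw [psi_eq, psi_eq, psi_eq]
  by_cases h1 : ∃ w : K, w ^ 2 + w = c <;> by_cases h2 : ∃ w : K, w ^ 2 + w = d
  · rw [if_pos h1, if_pos h2, if_pos (h.mpr ⟨fun _ => h2, fun _ => h1⟩)]; norm_num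
  · rw [if_pos h1, if_neg h2, if_neg (fun h3 => h2 ((h.mp h3).mp h1))]; norm_num
  · rw [if_neg h1, if_pos h2, if_neg (fun h3 => h1 ((h.mp h3).mpr h2))]; norm_num
  · rw [if_neg h1, if_neg h2, if_pos (h.mpr ⟨fun h3 => absurd h3 h1, fun h3 => absurd h3 h2⟩)]
    norm_num

lemma psi_four (c : K) : psi (c ^ 4) = psi c := by
  have h1 : c ^ 4 = c + ((c ^ 2 + c) ^ 2 + (c ^ 2 + c)) := by
    linear_combination (-(c + c ^ 2 + c ^ 3)) * two_K (K := K)
  rw [h1, psi_add]
  have h2 : psi ((c ^ 2 + c) ^ 2 + (c ^ 2 + c)) = 1 := by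
    classical
    rw [psi_eq, if_pos ⟨c ^ 2 + c, rfl⟩]
  rw [h2, mul_one]

lemma psi_nat (κ n : ℕ) (hκ : Fintype.card K = 2 ^ κ) : psi (n : K) = (-1) ^ (κ * n) := by
  classical
  have h := exists_iff (K := K) κ n hκ
  rw [psi_eq]
  by_cases h1 : ∃ w : K, w ^ 2 + w = (n : K)
  · rw [if_pos h1, (h.mp h1).neg_one_pow]
  · rw [if_neg h1]
    have h2 : Odd (κ * n) := by
      rw [← Nat.not_even_iff_odd]
      exact fun h3 => h1 (h.mpr h3)
    rw [h2.neg_one_pow]

end psis

section coeffs

variable {K : Type} [Field K] [CharP K 2]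

lemma coeff_four (p : K[X]) (k : ℕ) :
    (p ^ 4).coeff k = if 4 ∣ k then (p.coeff (k / 4)) ^ 4 else 0 := by
  have h := map_iterateFrobenius_expand (R := K) 2 p 2
  have h1 : p ^ 4 = p ^ 2 ^ 2 := by norm_num
  rw [h1, ← h, coeff_map, coeff_expand (by norm_num), iterateFrobenius_def]
  norm_num

end coeffs

section core

variable {K : Type} [Field K] [CharP K 2]

lemma deriv_F (a b : K[X]) : derivative (a ^ 4 + (X ^ 2 + X) * b ^ 4) = b ^ 4 := by
  have hC2 : (2 : K[X]) = 0 := by
    have h1 : (2 : K[X]) = C 2 := by rw [map_ofNat]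
    rw [h1, two_K, C_0]
  simp only [derivative_add, derivative_mul, derivative_pow, derivative_X, Nat.cast_ofNat,
    map_ofNat, Nat.add_one_sub_one, pow_one, mul_one]
  linear_combination (2 * a ^ 3 * derivative a + X * b ^ 4 +
    2 * (X ^ 2 + X) * b ^ 3 * derivative b) * hC2

omit [CharP K 2] in
lemma coprime_F (a b : K[X]) (h : IsCoprime a b) : IsCoprime (a ^ 4 + (X ^ 2 + X) * b ^ 4) b := by
  have h1 : IsCoprime (a ^ 4) b := h.pow_left
  have h2 : a ^ 4 + (X ^ 2 + X) * b ^ 4 = a ^ 4 + ((X ^ 2 + X) * b ^ 3) * b := by ring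
  rw [h2]
  exact h1.add_mul_right_left _

lemma squarefree_F (a b : K[X]) (h : IsCoprime a b) :
    Squarefree (a ^ 4 + (X ^ 2 + X) * b ^ 4) := by
  apply Separable.squarefree
  rw [Separable, deriv_F]
  exact (coprime_F a b h).pow_right

lemma deriv_G {R : Type} [CommRing R] (A B : R[X]) :
    derivative (A ^ 4 + (X ^ 2 + X) * B ^ 4) = (1 + C 2 * X) * B ^ 4 +
      C 4 * (A ^ 3 * derivative A + (X ^ 2 + X) * (B ^ 3 * derivative B)) := by
  simp only [derivative_add, derivative_mul, derivative_pow, derivative_X, Nat.cast_ofNat,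
    map_ofNat, Nat.add_one_sub_one, pow_one, mul_one]
  ring

variable [Fintype K]

/-- The sign, from the data of the lifts. -/
lemma core (N : ℕ) (hN : 2 ≤ N) (hNe : Even N) (a b : K[X]) (hab : IsCoprime a b)
    (A B G H : (WittVector 2 K)[X]) (hA : A.map (red K) = a) (hB : B.map (red K) = b)
    (hGdef : G = A ^ 4 + (X ^ 2 + X) * B ^ 4)
    (hHdef : H = A ^ 3 * derivative A + (X ^ 2 + X) * (B ^ 3 * derivative B))
    (hG : G.Monic) (hd : G.natDegree = N) (hH : H.natDegree ≤ N - 1)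
    (z : WittVector 2 K)
    (hz : (8 : WittVector 2 K) ∣ (-1) ^ (N * (N - 1) / 2) *
      (1 - 2 * G.coeff (N - 1) + 4 * G.coeff (N - 2)) - 1 + 4 * H.coeff (N - 1) - 4 * z) :
    (mob (a ^ 4 + (X ^ 2 + X) * b ^ 4) = 1 ∧ ∃ x : K, x ^ 2 + x = red K z) ∨
      (mob (a ^ 4 + (X ^ 2 + X) * b ^ 4) = -1 ∧ ¬ ∃ x : K, x ^ 2 + x = red K z) := by
  classical
  have hgred : G.map (red K) = a ^ 4 + (X ^ 2 + X) * b ^ 4 := by
    rw [hGdef]
    simp only [Polynomial.map_add, Polynomial.map_mul, Polynomial.map_pow, map_X, hA, hB]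
  have hsq : Squarefree (a ^ 4 + (X ^ 2 + X) * b ^ 4) := squarefree_F a b hab
  obtain ⟨v, hv, hvinj, hvperm, hvσ⟩ := sgn K N G hG hd (by rw [hgred]; exact hsq)
  rw [hgred] at hvσ
  have hroot : ∀ j, (G.map (emb K)).eval (v j) = 0 := by
    intro j
    rw [hv, eval_prod]
    exact Finset.prod_eq_zero (Finset.mem_univ j) (by simp)
  have hcop' : IsCoprime (G.map (red K)) (B.map (red K)) := by
    rw [hgred, hB]; exact coprime_F a b hab
  have hBred : ∀ j, red (AC K) ((B.map (emb K)).eval (v j)) ≠ 0 := by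
    intro j h0
    rw [red_map_eval] at h0
    have h1 : ((G.map (red K)).map (algebraMap K (AC K))).eval (red (AC K) (v j)) = 0 := by
      rw [← red_map_eval, hroot, map_zero]
    obtain ⟨p, q, hpq⟩ := hcop'
    have h2 := congrArg (fun F => (F.map (algebraMap K (AC K))).eval (red (AC K) (v j))) hpq
    simp only [Polynomial.map_add, Polynomial.map_mul, eval_add, eval_mul, h0, h1, mul_zero,
      add_zero, Polynomial.map_one, eval_one] at h2
    exact zero_ne_one h2
  have hred2 : red (AC K) (2 : WittVector 2 (AC K)) = 0 := by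
    rw [← two_dvd_iff]
  have hred4 : red (AC K) (4 : WittVector 2 (AC K)) = 0 := by
    rw [← two_dvd_iff]
    exact ⟨2, by norm_num⟩
  -- the derivative at the roots
  have hder : ∀ j, (derivative (∏ i, (X - C (v i)))).eval (v j) =
      (1 + 2 * v j) * ((B.map (emb K)).eval (v j)) ^ 4 + 4 * (H.map (emb K)).eval (v j) := by
    intro j
    rw [← hv, derivative_map, hGdef, deriv_G, ← hHdef]
    simp only [Polynomial.map_add, Polynomial.map_mul, Polynomial.map_pow, map_X,
      Polynomial.map_one, map_ofNat, eval_add, eval_mul, eval_pow, eval_X, eval_one]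
    rw [Polynomial.map_ofNat, Polynomial.map_ofNat, eval_ofNat, eval_ofNat]
  have hder0 : ∀ j, red (AC K) ((derivative (∏ i, (X - C (v i)))).eval (v j)) ≠ 0 := by
    intro j
    rw [hder, map_add, map_mul, map_mul, map_add, map_mul, hred2, hred4, map_one, zero_mul,
      zero_mul, add_zero, add_zero, one_mul, map_pow]
    exact pow_ne_zero 4 (hBred j)
  choose u hu using fun j => (isUnit_iff_red _ (hder0 j)).exists_left_inv
  obtain ⟨t, ht⟩ : ∃ t : Fin N → WittVector 2 (AC K), t = fun j =>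
    (H.map (emb K)).eval (v j) * u j := ⟨_, rfl⟩
  have hdt : ∀ j, (derivative (∏ i, (X - C (v i)))).eval (v j) * (1 - 4 * t j) =
      (1 + 2 * v j) * ((B.map (emb K)).eval (v j)) ^ 4 := by
    intro j
    rw [ht]
    have h1 := hu j
    have h2 := hder j
    linear_combination h2 - 4 * (H.map (emb K)).eval (v j) * h1
  have hsum : ∑ j, t j = emb K (H.coeff (N - 1)) := by
    rw [ht, ← lc_lagrange (by omega) v u _ hu, ← hv,
      lc_eq_coeff (n := N) (by omega) (hG.map _) (by rw [hG.natDegree_map, hd])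
      (natDegree_map_le.trans hH), coeff_map]
  obtain ⟨w1, hw1⟩ := prod_four Finset.univ t
  obtain ⟨w2, hw2⟩ := prod_two hN v
  rw [← hv, coeff_map, coeff_map] at hw2
  obtain ⟨P, hP⟩ : ∃ P, P = ∏ j, (B.map (emb K)).eval (v j) := ⟨_, rfl⟩
  have hprod : ((-1) ^ (N * (N - 1) / 2) * vdm v ^ 2) * ∏ j, (1 - 4 * t j) =
      (∏ j, (1 + 2 * v j)) * P ^ 4 := by
    rw [← Pool.Agent.H524.prod_eval_derivative, ← Finset.prod_mul_distrib, hP, ← Finset.prod_pow,
      ← Finset.prod_mul_distrib]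
    exact Finset.prod_congr rfl (fun j _ => hdt j)
  -- the permutation
  choose π hπ using hvperm
  have hπinj : Function.Injective π := by
    intro i j hij
    apply hvinj
    apply frobLift_injective_red (K := K)
    rw [hπ, hπ, hij]
  have hπbij : Function.Bijective π := Finite.injective_iff_bijective.mp hπinj
  have hPf : frobLift K P = P := by
    rw [hP, map_prod]
    simp_rw [frob_map_eval, hπ]
    exact Function.Bijective.prod_comp hπbij (fun j => (B.map (emb K)).eval (v j))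
  have hP0 : red (AC K) (P ^ 2) ≠ 0 := by
    rw [map_pow, hP, map_prod]
    exact pow_ne_zero 2 (Finset.prod_ne_zero_iff.mpr (fun j _ => hBred j))
  have hmob : mob (a ^ 4 + (X ^ 2 + X) * b ^ 4) = 1 ∨
      mob (a ^ 4 + (X ^ 2 + X) * b ^ 4) = -1 := by
    rw [mob, if_pos hsq]
    exact neg_one_pow_eq_or ℤ _
  rw [hNe.neg_one_pow, one_mul] at hvσ
  have hss : ((-1 : WittVector 2 (AC K)) ^ (N * (N - 1) / 2)) *
      (-1 : WittVector 2 (AC K)) ^ (N * (N - 1) / 2) = 1 := by
    rw [← mul_pow]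
    norm_num
  obtain ⟨z', hz'⟩ := hz
  have hz'' := congrArg (emb K) hz'
  simp only [map_add, map_sub, map_mul, map_pow, map_neg, map_one, map_ofNat] at hz''
  obtain ⟨x, hx, hx'⟩ := sign_step (vdm v) (P ^ 2)
    ((-1) ^ (N * (N - 1) / 2) * ∏ j, (1 + 2 * v j)) (∏ j, (1 - 4 * t j)) (emb K z)
    (mob (a ^ 4 + (X ^ 2 + X) * b ^ 4)) 1 hmob (Or.inl rfl) hvσ
    (by rw [map_pow, hPf]; push_cast; ring) hP0
    (by
      linear_combination (-1) ^ (N * (N - 1) / 2) * hprod -
        (vdm v ^ 2 * ∏ j, (1 - 4 * t j)) * hss)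
    (by
      rw [map_prod]
      apply Finset.prod_eq_one
      intro j _
      rw [map_sub, map_mul, hred4, zero_mul, sub_zero, map_one])
    (by
      refine ⟨emb K z' + (-1) ^ (N * (N - 1) / 2) * w2 - w1, ?_⟩
      rw [hw1, hw2, hsum]
      linear_combination hz'')
  rw [mul_one] at hx'
  obtain ⟨w', hw', hfin⟩ := last_step x 0 (algebraMap K (AC K) (red K z))
    (algebraMap K (AC K) (red K z)) (mob (a ^ 4 + (X ^ 2 + X) * b ^ 4))
    (by rw [hx, red_emb]) (by ring) (by
      rw [zero_pow (Fintype.card_ne_zero)]) (by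
      rw [← map_pow, FiniteField.pow_card]) hx'
  have hw'' : w' = red K z := (algebraMap K (AC K)).injective hw'
  rw [hw''] at hfin
  exact hfin

end core

section final

variable {K : Type} [Field K] [Fintype K] [CharP K 2]

lemma mob_of (κ n : ℕ) (hκ : Fintype.card K = 2 ^ κ) (c y : K) (ε : ℤ) (hy : y = c ^ 4 + n)
    (h : (ε = 1 ∧ ∃ x : K, x ^ 2 + x = y) ∨ (ε = -1 ∧ ¬ ∃ x : K, x ^ 2 + x = y)) :
    ε = (-1) ^ (κ * n) * psi c := by
  classical
  have h1 : ε = psi y := by
    rw [psi_eq]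
    rcases h with ⟨h1, h2⟩ | ⟨h1, h2⟩
    · rw [if_pos h2, h1]
    · rw [if_neg h2, h1]
  rw [h1, hy, psi_add, psi_four, psi_nat κ n hκ, mul_comm]

lemma nextCoeff_eq {R : Type} [CommRing R] (p : R[X]) (m : ℕ) (hm : 1 ≤ m)
    (hd : p.natDegree = m) : p.nextCoeff = p.coeff (m - 1) := by
  rw [nextCoeff_of_natDegree_pos (by omega), hd]

omit [Fintype K] in
lemma coeff_shift (b : K[X]) (d m : ℕ) (h : d ≤ m → ¬ 4 ∣ m - d) :
    (X ^ d * b ^ 4).coeff m = 0 := by
  rw [coeff_X_pow_mul']
  split_ifs with h1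
  · rw [coeff_four, if_neg (h h1)]
  · rfl

omit [Fintype K] [CharP K 2] in
lemma red_teich (c : K) : red K (WittVector.teichmuller 2 c) = c :=
  WittVector.teichmuller_coeff_zero 2 _

/-- First kind: `y` monic. -/
lemma par_one (κ n : ℕ) (hκ : Fintype.card K = 2 ^ κ) (a b : K[X]) (hab : IsCoprime a b)
    (ha : a.natDegree ≤ n) (hb : b.Monic) (hbn : b.natDegree = n) :
    mob (a ^ 4 + (X ^ 2 + X) * b ^ 4) = (-1) ^ (κ * n) * psi (a.coeff n) := by
  have hB := tl_monic hb
  have hBd : (tl b).natDegree = n := (natDegree_tl hb).trans hbn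
  have hAd : (tl a).natDegree ≤ n := (natDegree_tl_le a).trans ha
  have hX : ((X : (WittVector 2 K)[X]) ^ 2 + X).Monic := by monicity!
  have hXd : ((X : (WittVector 2 K)[X]) ^ 2 + X).natDegree = 2 := by compute_degree!
  have hB4 : (tl b ^ 4).Monic := hB.pow 4
  have hB4d : (tl b ^ 4).natDegree = 4 * n := by rw [hB.natDegree_pow, hBd]
  have hM : ((X ^ 2 + X) * tl b ^ 4).Monic := hX.mul hB4
  have hMd : ((X ^ 2 + X) * tl b ^ 4).natDegree = 4 * n + 2 := by
    rw [hX.natDegree_mul hB4, hB4d, hXd]; ring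
  have hA4d : (tl a ^ 4).natDegree ≤ 4 * n := natDegree_pow_le_of_le 4 hAd
  have hlt : (tl a ^ 4).degree < ((X ^ 2 + X) * tl b ^ 4).degree := by
    apply degree_lt_degree
    omega
  obtain ⟨G, hG⟩ : ∃ G, G = tl a ^ 4 + (X ^ 2 + X) * tl b ^ 4 := ⟨_, rfl⟩
  obtain ⟨H, hH⟩ : ∃ H, H = tl a ^ 3 * derivative (tl a) +
    (X ^ 2 + X) * (tl b ^ 3 * derivative (tl b)) := ⟨_, rfl⟩
  have hGm : G.Monic := by
    rw [hG, add_comm]
    exact hM.add_of_left hlt
  have hGd : G.natDegree = 4 * n + 2 := by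
    rw [hG, natDegree_add_eq_right_of_degree_lt hlt, hMd]
  have hHc : H.natDegree ≤ 4 * n + 1 ∧ H.coeff (4 * n + 1) = (n : WittVector 2 K) := by
    rw [hH]
    rcases Nat.eq_zero_or_pos n with h0 | hpos
    · subst h0
      have e1 : derivative (tl a) = 0 := derivative_of_natDegree_zero (by omega)
      have e2 : derivative (tl b) = 0 := derivative_of_natDegree_zero (by omega)
      rw [e1, e2]
      simp
    · have e1 := natDegree_cube_mul (tl a) n hpos hAd
      have e2 := natDegree_cube_mul (tl b) n hpos hBd.le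
      have e3 := coeff_cube_mul (tl b) n hpos hB hBd
      have e4 : ((X ^ 2 + X) * (tl b ^ 3 * derivative (tl b))).natDegree ≤ 4 * n + 1 := by
        refine natDegree_mul_le.trans ?_
        rw [hXd]
        omega
      constructor
      · refine (natDegree_add_le _ _).trans (max_le (by omega) e4)
      · rw [coeff_add, coeff_eq_zero_of_natDegree_lt (by omega : _ < 4 * n + 1), zero_add,
          show 4 * n + 1 = 2 + (4 * n - 1) by omega,
          coeff_mul_add_eq_of_natDegree_le hXd.le e2, e3]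
        simp [coeff_X]
  -- coefficients of `G`
  have hc1 : (4 : WittVector 2 K) ∣ G.coeff (4 * n + 1) - 1 := by
    have h1 := nextCoeff_eq _ (4 * n + 2) (by omega) hMd
    rw [hX.nextCoeff_mul hB4, hB.nextCoeff_pow, nextCoeff_eq _ 2 (by omega) hXd] at h1
    rw [hG, coeff_add, coeff_eq_zero_of_natDegree_lt (by omega : _ < 4 * n + 1), zero_add,
      show 4 * n + 1 = 4 * n + 2 - 1 by omega, ← h1]
    refine ⟨(tl b).nextCoeff, ?_⟩
    rw [nsmul_eq_mul]
    simp [coeff_X]
  have hc2 : (2 : WittVector 2 K) ∣ G.coeff (4 * n) -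
      (WittVector.teichmuller 2 (a.coeff n)) ^ 4 := by
    rw [two_dvd_iff, map_sub, map_pow, ← coeff_map, hG]
    simp only [Polynomial.map_add, Polynomial.map_mul, Polynomial.map_pow, map_X, map_tl]
    rw [red_teich, add_mul, coeff_add, coeff_add, coeff_four, if_pos (Dvd.intro n rfl),
      Nat.mul_div_cancel_left _ (by norm_num), coeff_shift b 2 (4 * n) (by omega)]
    have h2 := coeff_shift b 1 (4 * n) (by omega)
    rw [pow_one] at h2
    rw [h2]
    ring
  obtain ⟨g1, hg1⟩ := hc1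
  obtain ⟨g2, hg2⟩ := hc2
  have hodd : Odd ((4 * n + 2) * (4 * n + 2 - 1) / 2) := by
    rw [show (4 * n + 2) * (4 * n + 2 - 1) = 2 * ((2 * n + 1) * (4 * n + 1)) by
      rw [show 4 * n + 2 - 1 = 4 * n + 1 by omega]; ring, Nat.mul_div_cancel_left _ (by norm_num)]
    exact Odd.mul (odd_two_mul_add_one n) ⟨2 * n, by ring⟩
  have h := core (4 * n + 2) (by omega) ⟨2 * n + 1, by ring⟩ a b hab (tl a) (tl b) G H (map_tl a)
    (map_tl b) hG hH hGm hGd (by
      rw [show 4 * n + 2 - 1 = 4 * n + 1 by omega]; exact hHc.1)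
    ((n : WittVector 2 K) - (WittVector.teichmuller 2 (a.coeff n)) ^ 4) (by
      rw [show 4 * n + 2 - 1 = 4 * n + 1 by omega] at hodd ⊢
      rw [show 4 * n + 2 - 2 = 4 * n by omega, hodd.neg_one_pow, hHc.2]
      refine ⟨g1 - g2, ?_⟩
      linear_combination 2 * hg1 - 4 * hg2)
  refine mob_of κ n hκ (a.coeff n) _ _ ?_ h
  rw [map_sub, map_pow, red_teich, map_natCast]
  linear_combination (-(a.coeff n) ^ 4) * two_K (K := K)

/-- Second kind: `x` monic. -/
lemma par_two (κ n : ℕ) (hκ : Fintype.card K = 2 ^ κ) (a b : K[X]) (hab : IsCoprime a b)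
    (ha : a.Monic) (han : a.natDegree = n) (hb : b.natDegree + 1 ≤ n) :
    mob (a ^ 4 + (X ^ 2 + X) * b ^ 4) = (-1) ^ (κ * n) * psi (b.coeff (n - 1)) := by
  have hn : 1 ≤ n := by omega
  have hA := tl_monic ha
  have hAd : (tl a).natDegree = n := (natDegree_tl ha).trans han
  have hBd : (tl b).natDegree ≤ n - 1 := (natDegree_tl_le b).trans (by omega)
  have hXd : ((X : (WittVector 2 K)[X]) ^ 2 + X).natDegree = 2 := by compute_degree!
  have hA4 : (tl a ^ 4).Monic := hA.pow 4
  have hA4d : (tl a ^ 4).natDegree = 4 * n := by rw [hA.natDegree_pow, hAd]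
  have hB4d : (tl b ^ 4).natDegree ≤ 4 * (n - 1) := natDegree_pow_le_of_le 4 hBd
  have hMd : ((X ^ 2 + X) * tl b ^ 4).natDegree ≤ 4 * n - 2 := by
    refine natDegree_mul_le.trans ?_
    rw [hXd]
    omega
  have hlt : ((X ^ 2 + X) * tl b ^ 4).degree < (tl a ^ 4).degree := by
    apply degree_lt_degree
    omega
  obtain ⟨G, hG⟩ : ∃ G, G = tl a ^ 4 + (X ^ 2 + X) * tl b ^ 4 := ⟨_, rfl⟩
  obtain ⟨H, hH⟩ : ∃ H, H = tl a ^ 3 * derivative (tl a) +
    (X ^ 2 + X) * (tl b ^ 3 * derivative (tl b)) := ⟨_, rfl⟩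
  have hGm : G.Monic := by
    rw [hG]
    exact hA4.add_of_left hlt
  have hGd : G.natDegree = 4 * n := by
    rw [hG, natDegree_add_eq_left_of_degree_lt hlt, hA4d]
  have hHc : H.natDegree ≤ 4 * n - 1 ∧ H.coeff (4 * n - 1) = (n : WittVector 2 K) := by
    rw [hH]
    have e1 := natDegree_cube_mul (tl a) n hn hAd.le
    have e3 := coeff_cube_mul (tl a) n hn hA hAd
    have e4 : ((X ^ 2 + X) * (tl b ^ 3 * derivative (tl b))).natDegree ≤ 4 * n - 2 := by
      refine natDegree_mul_le.trans ?_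
      rw [hXd]
      have h1 : (tl b ^ 3).natDegree ≤ 3 * (n - 1) := natDegree_pow_le_of_le 3 hBd
      have h2 : (derivative (tl b)).natDegree ≤ (n - 1) - 1 :=
        (natDegree_derivative_le _).trans (by omega)
      have h3 : (tl b ^ 3 * derivative (tl b)).natDegree ≤ 3 * (n - 1) + ((n - 1) - 1) :=
        natDegree_mul_le.trans (by omega)
      omega
    constructor
    · exact (natDegree_add_le _ _).trans (max_le e1 (by omega))
    · rw [coeff_add, e3, coeff_eq_zero_of_natDegree_lt (by omega), add_zero]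
  have hc1 : (4 : WittVector 2 K) ∣ G.coeff (4 * n - 1) := by
    have h1 := nextCoeff_eq _ (4 * n) (by omega) hA4d
    rw [hA.nextCoeff_pow] at h1
    have h2 : ((X ^ 2 + X) * tl b ^ 4).coeff (4 * n - 1) = 0 :=
      coeff_eq_zero_of_natDegree_lt (by omega)
    rw [hG, coeff_add, h2, add_zero, ← h1]
    refine ⟨(tl a).nextCoeff, ?_⟩
    rw [nsmul_eq_mul]
    norm_num
  have hc2 : (2 : WittVector 2 K) ∣ G.coeff (4 * n - 2) -
      (WittVector.teichmuller 2 (b.coeff (n - 1))) ^ 4 := by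
    rw [two_dvd_iff, map_sub, map_pow, ← coeff_map, hG]
    simp only [Polynomial.map_add, Polynomial.map_mul, Polynomial.map_pow, map_X, map_tl]
    have h2 := coeff_shift b 1 (4 * n - 2) (by omega)
    rw [pow_one] at h2
    have h3 : (X ^ 2 * b ^ 4).coeff (4 * n - 2) = (b.coeff (n - 1)) ^ 4 := by
      rw [coeff_X_pow_mul', if_pos (by omega), coeff_four, if_pos ⟨n - 1, by omega⟩,
        show (4 * n - 2 - 2) / 4 = n - 1 by omega]
    rw [red_teich, add_mul, coeff_add, coeff_add, coeff_four, if_neg (by omega), h2, h3]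
    ring
  obtain ⟨g1, hg1⟩ := hc1
  obtain ⟨g2, hg2⟩ := hc2
  have heven : Even (4 * n * (4 * n - 1) / 2) := by
    rw [show 4 * n * (4 * n - 1) = 2 * (2 * (n * (4 * n - 1))) by ring,
      Nat.mul_div_cancel_left _ (by norm_num)]
    exact even_two_mul _
  have h := core (4 * n) (by omega) ⟨2 * n, by ring⟩ a b hab (tl a) (tl b) G H (map_tl a)
    (map_tl b) hG hH hGm hGd hHc.1
    ((n : WittVector 2 K) + (WittVector.teichmuller 2 (b.coeff (n - 1))) ^ 4) (by
      rw [heven.neg_one_pow, hHc.2]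
      refine ⟨g2 - g1, ?_⟩
      linear_combination 4 * hg2 - 2 * hg1)
  refine mob_of κ n hκ (b.coeff (n - 1)) _ _ ?_ h
  rw [map_add, map_pow, red_teich, map_natCast]
  ring

/-- **PAR2.** -/
theorem t_par2 : S_par2 := by
  intro K _ _ _ κ hκ n v hv
  have hsf : Squarefree (F2 v) := squarefree_F v.1 v.2 hv
  constructor
  · intro h1 h2
    refine ⟨hsf, ?_⟩
    rw [mem_lt] at h1
    rw [mem_mon] at h2
    have h3 : v.1.natDegree ≤ n := by
      rw [natDegree_le_iff_degree_le]
      exact Order.le_of_lt_succ (by exact_mod_cast h1)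
    exact par_one κ n hκ v.1 v.2 hv h3 h2.1 h2.2
  · intro h1 h2
    refine ⟨hsf, ?_⟩
    rw [mem_mon] at h1
    rw [mem_lt] at h2
    rcases Nat.eq_zero_or_pos n with h0 | hpos
    · subst h0
      have h3 : v.1 = 1 := (Monic.natDegree_eq_zero h1.1).mp h1.2
      have h4 : v.2 = 0 := by
        rw [← degree_eq_bot]
        by_contra h
        rw [← ne_eq, degree_ne_bot] at h
        rw [degree_eq_natDegree h] at h2
        exact absurd h2 (by simp)
      have h5 : F2 v = 1 := by
        unfold F2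
        rw [h3, h4]
        ring
      have h6 : psi (v.2.coeff (0 - 1)) = 1 := by
        classical
        rw [h4, coeff_zero, psi_eq, if_pos ⟨0, by ring⟩]
      rw [h5, mob_one, h6, Nat.mul_zero, pow_zero, mul_one]
    · have h3 : v.2.natDegree + 1 ≤ n := by
        by_cases h0 : v.2 = 0
        · rw [h0, natDegree_zero]; omega
        · rw [degree_eq_natDegree h0] at h2
          have : v.2.natDegree < n := by exact_mod_cast h2
          omega
      exact par_two κ n hκ v.1 v.2 hv h1.1 h1.2 h3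

end final

end Pool.Agent.H268.EX
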